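import Mathlib
import Pool.Agent.Q299.LG.All

set_option autoImplicit false

/-!
# Irreducible general members for all classes whose standard form is not small

General points of the plane, arbitrary multiplicities, arbitrary degree. The starting library
proves that the system `|d H - ∑ w i E i|` is nonspecial if `∑ w i + 4 |χ| ≥ 25000 (μ + 1) ^ 2`, where
`w i ≤ μ` for all `i` and `χ` is the Euler characteristic. Here we determine the structure of its
members.

Call `(d; w)` big if `100000 (μ + 1) ^ 2 ≤ ∑ w i + (χ - 1)` for some `μ ≥ 1` with `w i ≤ μ` for all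
`i` (`Pool.Agent.Q299.LG.BigC`; `SHDefs.virtdim` is `χ - 1`).

1. Let `(d; w)` be big and `χ ≥ 1`. Then the system has projective dimension `k = χ - 1`, it
   contains an irreducible curve with multiplicity exactly `w i` at `P i` for all `i`, and for any
   `k` further points `Q j` such that all `2 (n + k)` coordinates are algebraically independent,
   the only member through all `Q j` is such a curve. In particular, if `χ = 1`, the only member is
   irreducible.
2. Let `(d; w)` be any class with a nonempty system. Then it is the sum of disjoint `(-1)`-curves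
   `G a` with multiplicities `N a` and of a class `(d2; w2)` orthogonal to them which finitely many
   quadratic transformations carry to a standard class `(d1; w1)`, the members of the system are the
   curves `∏ G a ^ N a * F2` with `F2` in the system `(d2; w2)`, and, if `(d1; w1)` is big, the
   system `(d2; w2)` contains an irreducible curve with exactly the multiplicities `w2`; and then, if
   the system `(d; w)` has a reduced member, it is nonspecial, and all `N a` are one.
3. If `χ ≥ 1`, all `w i` are at most `μ`, `μ ≥ 1`, and `d ≥ 317 (μ + 1) ^ (3 / 2)` (in the form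
   `100489 (μ + 1) ^ 3 ≤ d ^ 2`), then `(d; w)` is big.
-/

namespace Pool.Agent.Results.MP_0421d9_ag.AllButSmallSystems

open MvPolynomial Pool.Agent.W609.CR Pool.Agent.TH167 Pool.Agent.TH167.SHDefs
open Pool.Agent.TH167.SH (sys_eq curve_iff decomp_iff chain_conv special_conv virtdim_eq dimL_eq
  chi Pr Dcp)
open Pool.Agent.Q299.LG

theorem result {n : ℕ} (P : Fin n → Fin 2 → ℂ)
    (hP : AlgebraicIndependent ℚ (fun ij : Fin n × Fin 2 => P ij.1 ij.2)) (d : ℕ)
    (w : Fin n → ℕ) :
    (BigC d w → 0 ≤ virtdim d w →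
      dimL P d w = virtdim d w ∧ (∃ F ∈ sys P d w, Curve P F d w) ∧
      ∀ (k : ℕ) (Q : Fin k → Fin 2 → ℂ), (k : ℤ) = virtdim d w →
        AlgebraicIndependent ℚ (fun ij : Fin (n + k) × Fin 2 => Fin.append P Q ij.1 ij.2) →
        ∃ F, Curve P F d w ∧
          ∀ F', (F' ∈ sys P d w ∧ ∀ j, eval ![Q j 0, Q j 1, 1] F' = 0) ↔ ∃ c : ℂ, F' = c • F) ∧
    (4 ≤ n → 0 ≤ dimL P d w →
      ∃ (d2 : ℕ) (w2 : Fin n → ℕ) (k : ℕ) (G : Fin k → MvPolynomial (Fin 3) ℂ) (e : Fin k → ℕ)
        (u : Fin k → Fin n → ℕ) (N : Fin k → ℕ) (d1 : ℕ) (w1 : Fin n → ℕ),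
        Decomp P d w d2 w2 G e u N ∧
        Relation.ReflTransGen Quadratic (d2, w2) (d1, w1) ∧
        (∀ i j l : Fin n, i ≠ j → i ≠ l → j ≠ l → w1 i + w1 j + w1 l ≤ d1) ∧
        (∀ F, F ∈ sys P d w ↔ ∃ F2 ∈ sys P d2 w2, F = (∏ a, G a ^ N a) * F2) ∧
        (BigC d1 w1 →
          dimL P d w = virtdim d1 w1 ∧
          (∃ C ∈ sys P d2 w2, Curve P C d2 w2) ∧
          ((∃ F ∈ sys P d w, Squarefree F) → (∀ a, N a = 1) ∧ ¬ Special P d w))) ∧
    (∀ μ : ℕ, 1 ≤ μ → (∀ i, w i ≤ μ) → 100489 * (μ + 1) ^ 3 ≤ d ^ 2 → 0 ≤ virtdim d w →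
      BigC d w) := by
  classical
  refine ⟨?_, ?_, fun μ hμ hw hd h0 => BigC.of_deg hμ hw hd h0⟩
  · intro hb h0
    rw [virtdim_eq] at h0
    refine ⟨?_, ?_, ?_⟩
    · have h1 := hb.exp hP
      rw [dimL_eq, virtdim_eq]
      omega
    · obtain ⟨F, h1, h2, h3⟩ := hb.curve hP (by omega)
      refine ⟨F, ?_, curve_iff.2 ⟨h1, h2, h3⟩⟩
      rw [sys_eq]
      exact mem_of_ord h2 h3
    · intro k Q hk hPQ
      obtain ⟨μ, hμ, hw, hb⟩ := hb
      rw [virtdim_eq] at hb hk
      have hsum : 100000 * (μ + 1) ^ 2 ≤ ∑ i, w i + k := by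
        have h1 : ((100000 * (μ + 1) ^ 2 : ℕ) : ℤ) ≤ ((∑ i, w i + k : ℕ) : ℤ) := by
          push_cast
          linarith
        exact_mod_cast h1
      obtain ⟨F, h1, h2, h3, h4⟩ := through (d := d) hμ hw hsum (by omega) hPQ
      refine ⟨F, curve_iff.2 ⟨h1, h2, h3⟩, fun F' => ?_⟩
      rw [sys_eq]
      exact h4 F'
  · intro hn h0
    rw [dimL_eq] at h0
    obtain ⟨d2, w2, k, G, e, u, N, d1, w1, hD, hdim, hch, hred, h⟩ :=
      all_classes hn hP (d := d) (w := w) (by omega)
    have hmem : ∀ F, F ∈ sys P d w ↔ ∃ F2 ∈ sys P d2 w2, F = (∏ a, G a ^ N a) * F2 := by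
      intro F
      rw [sys_eq, sys_eq]
      constructor
      · intro hF
        have hfin := vs_fin (fun j => aff (P j)) w d
        have h1 := Submodule.eq_of_le_of_finrank_eq hD.map_le (by rw [hD.map_finrank, hdim])
        rw [← h1] at hF
        obtain ⟨g, hg, rfl⟩ := hF
        exact ⟨g, hg, rfl⟩
      · rintro ⟨F2, hF2, rfl⟩
        exact hD.map_le ⟨F2, hF2, rfl⟩
    refine ⟨d2, w2, k, G, e, u, N, d1, w1, decomp_iff.2 hD, chain_conv hch, hred, hmem,
      fun hb => ?_⟩
    obtain ⟨h1, ⟨C, c1, c2, c3⟩, h3⟩ := h hb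
    refine ⟨?_, ⟨C, ?_, curve_iff.2 ⟨c1, c2, c3⟩⟩, ?_⟩
    · rw [dimL_eq, virtdim_eq, h1]
    · rw [sys_eq]
      exact mem_of_ord c2 c3
    · rintro ⟨F, hF, hsq⟩
      have hN : ∀ a, N a = 1 := by
        intro a
        obtain ⟨F2, -, hF2⟩ := (hmem F).1 hF
        have h4 := hD.pos a
        by_contra hcon
        have h5 : G a * G a ∣ F := by
          rw [hF2]
          refine Dvd.dvd.mul_right ?_ F2
          refine dvd_trans ?_ (Finset.dvd_prod_of_mem _ (Finset.mem_univ a))
          rw [← pow_two]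
          exact pow_dvd_pow _ (by omega)
        exact (hD.exc a).irr.not_isUnit (hsq _ h5)
      refine ⟨hN, fun hs => ?_⟩
      exact h3 hN ((special_conv P d w).1 hs)

end Pool.Agent.Results.MP_0421d9_ag.AllButSmallSystems
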