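import Mathlib
import Pool.Agent.Q299.IR.Main
import Pool.Agent.Q299.IR.Ext
import Pool.Agent.TH167.SH.Conv
import Pool.Agent.Results.MP_b56c98_ag.PlaneAllDegrees

set_option autoImplicit false

/-!
# Linear systems with equal multiplicities: reduced and irreducible members

Let `n ≥ 37`, or `n = 13`, `n = 21`, or let `n ≥ 10` be a perfect square, and let `m ≥ 1`. Let
`P 1, …, P n` be very general points of the complex projective plane (their `2 n` affine coordinates
are algebraically independent over `ℚ`). The starting library proves that the system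
`|d H - m ∑ E i|` has the expected dimension for every `d`. We prove that the nonempty ones have
reduced members, and irreducible ones as soon as they move.

Let `k + 1 = (d + 2).choose 2 - n * (m + 1).choose 2 ≥ 1` be the number of sections.

* If `k ≥ 1`, the system has no fixed part and it contains an irreducible curve whose multiplicity is
  exactly `m` at every `P i`. More precisely, for `k` further points `Q j` such that all `2 (n + k)`
  coordinates are algebraically independent, the only member through all `Q j` is irreducible.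
* If `k = 0`, the only member is reduced, its multiplicities are exactly `m`, and its irreducible
  components form one orbit of the symmetric group of the points: they have the same degree, and the
  multiplicities of any two of them are permutations of each other.

The proof uses automorphisms of the field of the complex numbers which permute the points: fixed
parts, and components through a part of the points `Q j`, are uniform classes, and two effective
uniform classes meet.
-/

namespace Pool.Agent.Results.MP_0421d9_ag.IrreducibleMembers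

open MvPolynomial Pool.Agent.W609.CR Pool.Agent.TH167 Pool.Agent.TH167.SHDefs
open Pool.Agent.TH167.SH hiding hh
open Pool.Agent.Q299.IR

/-- the dimensions of all uniform systems -/
theorem unif {n : ℕ} (hn : 37 ≤ n ∨ n = 13 ∨ n = 21 ∨ (10 ≤ n ∧ IsSquare n))
    {P : Fin n → Fin 2 → ℂ} (hP : AlgebraicIndependent ℚ (fun ij : Fin n × Fin 2 => P ij.1 ij.2))
    (e a : ℕ) : Module.finrank ℂ ↥(VS (fun i => aff (P i)) (fun _ : Fin n => a) e) = hh n e a := by
  have hgen : ∀ G : MvPolynomial (Fin n × Fin 2) ℚ, G ≠ 0 →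
      MvPolynomial.aeval (fun ij : Fin n × Fin 2 => P ij.1 ij.2) G ≠ 0 := fun G hG h =>
    hG ((injective_iff_map_eq_zero _).1 hP G h)
  rcases Nat.eq_zero_or_pos a with rfl | ha
  · have h : VS (fun i => aff (P i)) (fun _ : Fin n => 0) e = homogeneousSubmodule (Fin 3) ℂ e := by
      ext f
      rw [mem_VS, mem_homogeneousSubmodule]
      exact ⟨fun h => h.1, fun h => ⟨h, fun i => van_zero _ _⟩⟩
    rw [h, H248R6.finrank_homog]
    unfold hh
    simp
  · obtain ⟨F, hF, hF'⟩ := Pool.Agent.Results.MP_b56c98_ag.PlaneAllDegrees.all_of ha hn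
    have h := hF' P (hgen F hF) e
    unfold H932R3.ExpDim at h
    rw [vs_eq_forms]
    unfold H248R5.forms
    rw [h, Finset.sum_const, Finset.card_univ, Fintype.card_fin, smul_eq_mul]
    rfl

theorem mem_iff {n k d m : ℕ} {P : Fin n → Fin 2 → ℂ} {Q : Fin k → Fin 2 → ℂ}
    {F : MvPolynomial (Fin 3) ℂ} :
    (F ∈ sys P d (fun _ => m) ∧ ∀ j, eval ![Q j 0, Q j 1, 1] F = 0) ↔
      F ∈ VQ P Q (fun _ => m) Finset.univ d := by
  rw [mem_VQ, sys_eq]
  exact ⟨fun h => ⟨h.1, fun j _ => h.2 j⟩, fun h => ⟨h.1, fun j => h.2 j (Finset.mem_univ j)⟩⟩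

theorem result {n m d k : ℕ} (hn : 37 ≤ n ∨ n = 13 ∨ n = 21 ∨ (10 ≤ n ∧ IsSquare n))
    (hd : (d + 2).choose 2 = n * (m + 1).choose 2 + (k + 1))
    (P : Fin n → Fin 2 → ℂ) (hP : AlgebraicIndependent ℚ (fun ij : Fin n × Fin 2 => P ij.1 ij.2)) :
    Module.finrank ℂ ↥(sys P d (fun _ => m)) = k + 1 ∧
    (1 ≤ k →
      (∀ G, (∀ F ∈ sys P d (fun _ => m), G ∣ F) → IsUnit G) ∧
      (∃ F ∈ sys P d (fun _ => m), Curve P F d (fun _ => m)) ∧
      ∀ Q : Fin k → Fin 2 → ℂ,
        AlgebraicIndependent ℚ (fun ij : Fin (n + k) × Fin 2 => Fin.append P Q ij.1 ij.2) →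
        ∃ F, Curve P F d (fun _ => m) ∧
          ∀ F', (F' ∈ sys P d (fun _ => m) ∧ ∀ j, eval ![Q j 0, Q j 1, 1] F' = 0) ↔
            ∃ c : ℂ, F' = c • F) ∧
    (k = 0 → ∃ F, (∀ F', F' ∈ sys P d (fun _ => m) ↔ ∃ c : ℂ, F' = c • F) ∧ Squarefree F ∧
      (∀ i, F ∈ pt (P i) ^ m ∧ F ∉ pt (P i) ^ (m + 1)) ∧
      ∀ G G', Irreducible G → G ∣ F → Irreducible G' → G' ∣ F →
        ∃ (e : ℕ) (u : Fin n → ℕ) (σ : Equiv.Perm (Fin n)),
          Curve P G e u ∧ Curve P G' e (fun i => u (σ i))) := by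
  classical
  have h10 : 10 ≤ n := by omega
  have hU := unif hn hP
  have hk : hh n d m = k + 1 := by
    unfold hh
    omega
  -- the member through the points `Q`
  have key : ∀ Q : Fin k → Fin 2 → ℂ,
      AlgebraicIndependent ℚ (fun ij : Fin (n + k) × Fin 2 => Fin.append P Q ij.1 ij.2) →
      ∃ F ∈ VQ P Q (fun _ => m) Finset.univ d, F ≠ 0 ∧
        ∀ F', F' ∈ VQ P Q (fun _ => m) Finset.univ d ↔ ∃ c : ℂ, F' = c • F := by
    intro Q hPQ
    have h1 := finrank_VQ hPQ (fun _ => m) (Finset.univ) d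
    rw [hU, Finset.card_univ, Fintype.card_fin, hk] at h1
    have h2 : 0 < Module.finrank ℂ ↥(VQ P Q (fun _ => m) Finset.univ d) := by omega
    have hfin := vs_fin (fun i => aff (P i)) (fun _ : Fin n => m) d
    have hfin2 : Module.Finite ℂ ↥(VQ P Q (fun _ => m) Finset.univ d) :=
      Submodule.finiteDimensional_of_le (S₂ := VS (fun i => aff (P i)) (fun _ => m) d)
        fun g hg => hg.1
    rw [Module.finrank_pos_iff_exists_ne_zero] at h2
    obtain ⟨⟨F, hF⟩, hF0⟩ := h2
    have hF0' : F ≠ 0 := fun h => hF0 (Subtype.ext h)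
    refine ⟨F, hF, hF0', fun F' => ⟨fun h => span_one h10 hPQ hU hk hF hF0' h, ?_⟩⟩
    rintro ⟨c, rfl⟩
    exact Submodule.smul_mem _ c hF
  refine ⟨by rw [sys_eq, hU, hk], fun hk1 => ?_, fun hk0 => ?_⟩
  · have main : ∀ Q : Fin k → Fin 2 → ℂ,
        AlgebraicIndependent ℚ (fun ij : Fin (n + k) × Fin 2 => Fin.append P Q ij.1 ij.2) →
        ∃ F ∈ sys P d (fun _ => m), Curve P F d (fun _ => m) ∧
          ∀ F', (F' ∈ sys P d (fun _ => m) ∧ ∀ j, eval ![Q j 0, Q j 1, 1] F' = 0) ↔
            ∃ c : ℂ, F' = c • F := by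
      intro Q hPQ
      obtain ⟨F, hF, hF0, hF'⟩ := key Q hPQ
      refine ⟨F, (mem_iff.2 hF).1, curve_iff.2 ⟨irr h10 hPQ hU hk1 hk hF hF0,
        ((mem_VS _ _ _ _).1 hF.1).1, fun i => exact_mult h10 hPQ hU hk hF hF0 i⟩, fun G => ?_⟩
      rw [mem_iff]
      exact hF' G
    obtain ⟨Q, hPQ⟩ := exists_Q k hP
    refine ⟨fun G hG => ?_, ?_, fun Q' hPQ' => ?_⟩
    · refine nofix h10 hPQ hU (m := m) (d := d) (by omega) ?_
      rw [← sys_eq]
      exact hG
    · obtain ⟨F, hF, hC, -⟩ := main Q hPQ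
      exact ⟨F, hF, hC⟩
    · obtain ⟨F, -, hC, hF'⟩ := main Q' hPQ'
      exact ⟨F, hC, hF'⟩
  · subst hk0
    obtain ⟨Q, hPQ⟩ := exists_Q 0 hP
    obtain ⟨F, hF, hF0, hF'⟩ := key Q hPQ
    have hFi := inv_F h10 hPQ hU hk hF hF0
    have hFh := ((mem_VS _ _ _ _).1 hF.1).1
    have horb := fun G (hG : Irreducible G) hGF => orbit h10 hPQ hU (by omega) hF.1 hF0 hFi
      (G := G) hG hGF
    refine ⟨F, fun G => ?_, ?_, fun i => ?_, fun G G' hG hGF hG' hGF' => ?_⟩
    · rw [← hF' G, ← mem_iff]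
      exact ⟨fun h => ⟨h, fun j => j.elim0⟩, fun h => h.1⟩
    · rw [squarefree_iff_irreducible_sq_not_dvd_of_ne_zero hF0]
      intro G hG hGG
      exact (horb G hG (dvd_trans (dvd_mul_right G G) hGG)).1 hGG
    · have h1 := exact_mult h10 hPQ hU hk hF hF0 i
      exact ⟨(t_link ℂ (P i) m F d hFh).1 h1.1, fun h => h1.2 ((t_link ℂ (P i) (m + 1) F d hFh).2 h)⟩
    · obtain ⟨τ, σ, hτ, hass⟩ := (horb G hG hGF).2 G' hG' hGF'
      have hGh := Pool.Agent.Chud.homog_of_dvd hFh hF0 hGF
      have hG'h := Pool.Agent.Chud.homog_of_dvd hFh hF0 hGF'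
      have hex : ∀ i, ∃ m, Pool.Agent.W609.CR.Ord (aff (P i)) m G := fun i =>
        exists_ord hG.ne_zero hGh
      choose u hu using hex
      have hdeg : G'.totalDegree = G.totalDegree := by
        obtain ⟨v, hv⟩ := hass
        have hvu := v.isUnit
        have hv0 : (v : MvPolynomial (Fin 3) ℂ) ≠ 0 := v.ne_zero
        have h0 : (v : MvPolynomial (Fin 3) ℂ).totalDegree = 0 := by
          by_contra hcon
          exact not_unit_of_deg (by omega) hvu
        rw [← hv, totalDegree_mul_of_isDomain (ph_ne τ hG.ne_zero) hv0, h0,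
          (ph_hom τ hGh).totalDegree (ph_ne τ hG.ne_zero), Nat.add_zero]
      refine ⟨G.totalDegree, u, σ.symm, curve_iff.2 ⟨hG, hGh, hu⟩, curve_iff.2 ⟨hG', ?_, fun i => ?_⟩⟩
      · rw [← hdeg]
        exact hG'h
      · have h1 := (hτ.ord (σ.symm i) (u (σ.symm i)) G).2 (hu _)
        rw [σ.apply_symm_apply] at h1
        exact ord_assoc hass h1

end Pool.Agent.Results.MP_0421d9_ag.IrreducibleMembers
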