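import Mathlib
import Pool.Agent.Q299.IG.Main
import Pool.Agent.Q299.IG.Dim
import Pool.Agent.Q299.IR.Ext
import Pool.Agent.TH167.SH.Conv

set_option autoImplicit false

/-!
# Linear systems with repeated multiplicities of arbitrary size and ratio: irreducible members

Let `P 1, …, P n` be very general points of the complex projective plane (their `2 n` affine
coordinates are algebraically independent over `ℚ`), and let `w 1, …, w n` be multiplicities which
take `s` different values, each of them at least `40000 s` times; nothing is assumed on the size of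
the values or on their ratios. The starting library proves that the system `|d H - ∑ w i E i|` has
the expected dimension for every `d`. We prove that the nonempty ones have reduced members, and
irreducible ones as soon as they move.

Let `k + 1 = (d + 2).choose 2 - ∑ (w i + 1).choose 2 ≥ 1` be the number of sections.

* If `k ≥ 1`, the system has no fixed part and it contains an irreducible curve whose multiplicity is
  exactly `w i` at every `P i`. More precisely, for `k` further points `Q j` such that all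
  `2 (n + k)` coordinates are algebraically independent, the only member through all `Q j` is
  irreducible.
* If `k = 0`, the only member is reduced, its multiplicities are exactly the `w i`, and its
  irreducible components are conjugate: they have the same degree, and the multiplicities of any two
  of them differ by a permutation of the points which preserves `w`.

The case `s = 1` and `n ≥ 37` is in `Pool.Agent.Results.MP_0421d9_ag.IrreducibleMembers`.
-/

namespace Pool.Agent.Results.MP_0421d9_ag.RepeatedMultiplicities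

open MvPolynomial Pool.Agent.W609.CR Pool.Agent.TH167 Pool.Agent.TH167.SHDefs
open Pool.Agent.TH167.SH
open Pool.Agent.Q299.IG
open Pool.Agent.Q299.IR (VQ mem_VQ finrank_VQ exists_Q exists_ord not_unit_of_deg ph_ne ph_hom
  ord_assoc ph_dvd)

theorem mem_iff {n k d : ℕ} {w : Fin n → ℕ} {P : Fin n → Fin 2 → ℂ} {Q : Fin k → Fin 2 → ℂ}
    {F : MvPolynomial (Fin 3) ℂ} :
    (F ∈ sys P d w ∧ ∀ j, eval ![Q j 0, Q j 1, 1] F = 0) ↔ F ∈ VQ P Q w Finset.univ d := by
  rw [mem_VQ, sys_eq]
  exact ⟨fun h => ⟨h.1, fun j _ => h.2 j⟩, fun h => ⟨h.1, fun j => h.2 j (Finset.mem_univ j)⟩⟩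

theorem result {n d k : ℕ} (w : Fin n → ℕ)
    (hw : ∀ i, 40000 * (Finset.univ.image w).card ≤ (Finset.univ.filter fun j => w j = w i).card)
    (hd : (d + 2).choose 2 = ∑ i, (w i + 1).choose 2 + (k + 1))
    (P : Fin n → Fin 2 → ℂ) (hP : AlgebraicIndependent ℚ (fun ij : Fin n × Fin 2 => P ij.1 ij.2)) :
    Module.finrank ℂ ↥(sys P d w) = k + 1 ∧
    (1 ≤ k →
      (∀ G, (∀ F ∈ sys P d w, G ∣ F) → IsUnit G) ∧
      (∃ F ∈ sys P d w, Curve P F d w) ∧
      ∀ Q : Fin k → Fin 2 → ℂ,
        AlgebraicIndependent ℚ (fun ij : Fin (n + k) × Fin 2 => Fin.append P Q ij.1 ij.2) →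
        ∃ F, Curve P F d w ∧
          ∀ F', (F' ∈ sys P d w ∧ ∀ j, eval ![Q j 0, Q j 1, 1] F' = 0) ↔ ∃ c : ℂ, F' = c • F) ∧
    (k = 0 → ∃ F, (∀ F', F' ∈ sys P d w ↔ ∃ c : ℂ, F' = c • F) ∧ Squarefree F ∧
      (∀ i, F ∈ pt (P i) ^ w i ∧ F ∉ pt (P i) ^ (w i + 1)) ∧
      ∀ G G', Irreducible G → G ∣ F → Irreducible G' → G' ∣ F →
        ∃ (e : ℕ) (u : Fin n → ℕ) (σ : Equiv.Perm (Fin n)), (∀ i, w (σ i) = w i) ∧
          Curve P G e u ∧ Curve P G' e (fun i => u (σ i))) := by
  classical
  have hbig : Rep w := Repeated.rep hw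
  have hU := dims (w0 := w) hw hP
  have hgc := GC.refl w
  have hk : HH w d = k + 1 := by
    unfold HH
    omega
  -- the member through the points `Q`
  have key : ∀ Q : Fin k → Fin 2 → ℂ,
      AlgebraicIndependent ℚ (fun ij : Fin (n + k) × Fin 2 => Fin.append P Q ij.1 ij.2) →
      ∃ F ∈ VQ P Q w Finset.univ d, F ≠ 0 ∧
        ∀ F', F' ∈ VQ P Q w Finset.univ d ↔ ∃ c : ℂ, F' = c • F := by
    intro Q hPQ
    have h1 := finrank_VQ hPQ w (Finset.univ) d
    rw [hU _ _ hgc, Finset.card_univ, Fintype.card_fin, hk] at h1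
    have h2 : 0 < Module.finrank ℂ ↥(VQ P Q w Finset.univ d) := by omega
    have hfin := vs_fin (fun i => aff (P i)) w d
    have hfin2 : Module.Finite ℂ ↥(VQ P Q w Finset.univ d) :=
      Submodule.finiteDimensional_of_le (S₂ := VS (fun i => aff (P i)) w d) fun g hg => hg.1
    rw [Module.finrank_pos_iff_exists_ne_zero] at h2
    obtain ⟨⟨F, hF⟩, hF0⟩ := h2
    have hF0' : F ≠ 0 := fun h => hF0 (Subtype.ext h)
    refine ⟨F, hF, hF0', fun F' => ⟨fun h => span_one hbig hPQ hU hgc hk hF hF0' h, ?_⟩⟩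
    rintro ⟨c, rfl⟩
    exact Submodule.smul_mem _ c hF
  refine ⟨by rw [sys_eq, hU _ _ hgc, hk], fun hk1 => ?_, fun hk0 => ?_⟩
  · have main : ∀ Q : Fin k → Fin 2 → ℂ,
        AlgebraicIndependent ℚ (fun ij : Fin (n + k) × Fin 2 => Fin.append P Q ij.1 ij.2) →
        ∃ F ∈ sys P d w, Curve P F d w ∧
          ∀ F', (F' ∈ sys P d w ∧ ∀ j, eval ![Q j 0, Q j 1, 1] F' = 0) ↔
            ∃ c : ℂ, F' = c • F := by
      intro Q hPQ
      obtain ⟨F, hF, hF0, hF'⟩ := key Q hPQ
      refine ⟨F, (mem_iff.2 hF).1, curve_iff.2 ⟨irr hbig hPQ hU hgc hk1 hk hF hF0,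
        ((mem_VS _ _ _ _).1 hF.1).1, fun i => exact_mult hbig hPQ hU hgc hk hF hF0 i⟩, fun G => ?_⟩
      rw [mem_iff]
      exact hF' G
    obtain ⟨Q, hPQ⟩ := exists_Q k hP
    refine ⟨fun G hG => ?_, ?_, fun Q' hPQ' => ?_⟩
    · refine nofix hbig hPQ hU hgc (d := d) (by omega) ?_
      rw [← sys_eq]
      exact hG
    · obtain ⟨F, hF, hC, -⟩ := main Q hPQ
      exact ⟨F, hF, hC⟩
    · obtain ⟨F, -, hC, hF'⟩ := main Q' hPQ'
      exact ⟨F, hC, hF'⟩
  · subst hk0
    obtain ⟨Q, hPQ⟩ := exists_Q 0 hP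
    obtain ⟨F, hF, hF0, hF'⟩ := key Q hPQ
    have hFi := inv_F hbig hPQ hU hgc hk hF hF0
    have hFh := ((mem_VS _ _ _ _).1 hF.1).1
    have horb := fun G (hG : Irreducible G) hGF => orbit hbig hPQ hU hgc (by omega) hF.1 hF0 hFi
      (G := G) hG hGF
    refine ⟨F, fun G => ?_, ?_, fun i => ?_, fun G G' hG hGF hG' hGF' => ?_⟩
    · rw [← hF' G, ← mem_iff]
      exact ⟨fun h => ⟨h, fun j => j.elim0⟩, fun h => h.1⟩
    · rw [squarefree_iff_irreducible_sq_not_dvd_of_ne_zero hF0]
      intro G hG hGG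
      exact (horb G hG (dvd_trans (dvd_mul_right G G) hGG)).1 hGG
    · have h1 := exact_mult hbig hPQ hU hgc hk hF hF0 i
      exact ⟨(t_link ℂ (P i) (w i) F d hFh).1 h1.1,
        fun h => h1.2 ((t_link ℂ (P i) (w i + 1) F d hFh).2 h)⟩
    · obtain ⟨τ, σ, hτ, hσ, hass⟩ := (horb G hG hGF).2 G' hG' hGF'
      have hGh := Pool.Agent.Chud.homog_of_dvd hFh hF0 hGF
      have hG'h := Pool.Agent.Chud.homog_of_dvd hFh hF0 hGF'
      have hex : ∀ i, ∃ m, Pool.Agent.W609.CR.Ord (aff (P i)) m G := fun i =>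
        exists_ord hG.ne_zero hGh
      choose u hu using hex
      have hdeg : G'.totalDegree = G.totalDegree := by
        obtain ⟨v, hv⟩ := hass
        have hvu := v.isUnit
        have hv0 : (v : MvPolynomial (Fin 3) ℂ) ≠ 0 := v.ne_zero
        have h0 : (v : MvPolynomial (Fin 3) ℂ).totalDegree = 0 := by
          by_contra hcon
          exact not_unit_of_deg (by omega) hvu
        rw [← hv, totalDegree_mul_of_isDomain (ph_ne τ hG.ne_zero) hv0, h0,
          (ph_hom τ hGh).totalDegree (ph_ne τ hG.ne_zero), Nat.add_zero]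
      refine ⟨G.totalDegree, u, σ.symm, hσ.symm, curve_iff.2 ⟨hG, hGh, hu⟩,
        curve_iff.2 ⟨hG', ?_, fun i => ?_⟩⟩
      · rw [← hdeg]
        exact hG'h
      · have h1 := (hτ.ord (σ.symm i) (u (σ.symm i)) G).2 (hu _)
        rw [σ.apply_symm_apply] at h1
        exact ord_assoc hass h1

end Pool.Agent.Results.MP_0421d9_ag.RepeatedMultiplicities
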