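import Mathlib
import Pool.Agent.Q299.SM.Main

set_option autoImplicit false

/-!
# Arbitrary multiplicities: smooth general members unless the class is small

General points of the complex projective plane, ARBITRARY multiplicities `v i ≤ μ`, `μ ≥ 1`,
`χ = (d + 2).choose 2 - ∑ (v i + 1).choose 2`. If `χ` is larger than all `v i` (and positive) and
`60000 (μ + 1) ^ 2 ≤ ∑ v i + 4 χ`, or `χ` is larger than all `v i` and
`d ≥ √60000 (μ + 1) ^ (3 / 2)`, then for all `u i ≤ v i` the system `|d H - ∑ u i E i|` is nonspecial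
and its general member is a smooth curve on the blow-up (with multiplicity exactly `u i` at the
points). The points are those of one nonempty open set which depends only on `v`.
-/

namespace Pool.Agent.Results.MP_0421d9_ag.SmoothUnlessSmall

open Finset Pool.Agent.H248R5 Pool.Agent.H248R6

theorem result {n : ℕ} (hn : 0 < n) (v : Fin n → ℕ) :
    ∃ F : MvPolynomial (Fin n × Fin 2) ℂ, F ≠ 0 ∧
      ∀ P : Fin n → Fin 2 → ℂ,
        MvPolynomial.eval (fun ij : Fin n × Fin 2 => P ij.1 ij.2) F ≠ 0 →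
        ∀ d μ : ℕ, 1 ≤ μ → (∀ i, v i ≤ μ) →
          (60000 * ((μ : ℤ) + 1) ^ 2 ≤ ∑ i, (v i : ℤ) +
              4 * (((d + 2).choose 2 : ℤ) - ∑ i, ((v i + 1).choose 2 : ℤ)) ∨
            60000 * (μ + 1) ^ 3 ≤ d ^ 2) →
          (∀ k, ∑ i, (v i + 1).choose 2 + v k < (d + 2).choose 2) →
          ∀ u : Fin n → ℕ, (∀ i, u i ≤ v i) →
            Module.finrank ℂ ↥(forms u P d) = (d + 2).choose 2 - ∑ i, (u i + 1).choose 2 ∧
            GeneralMember (forms u P d) (SmoothMember u P) := by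
  obtain ⟨F, hF, hF'⟩ := Pool.Agent.Q299.SM.smooth (K := ℂ) hn v
  refine ⟨F.map (algebraMap ℚ ℂ), Pool.Agent.H932R3.map_ne_zero_of hF,
    fun P hP d μ hμ hv h1 h2 u hu => ?_⟩
  rw [MvPolynomial.eval_map] at hP
  obtain ⟨h3, h4⟩ := hF' P hP u hu d (by
    rcases h1 with h1 | h1
    · exact ⟨μ, hμ, hv, h1, h2⟩
    · exact Pool.Agent.Q299.SM.Good.of_deg hμ hv hn h1 h2)
  exact ⟨by omega, h4⟩

end Pool.Agent.Results.MP_0421d9_ag.SmoothUnlessSmall
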